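import Pool.Agent.H99.BP.Reg

/-!
# Regular open sets of the line: rational intervals and translations
-/

set_option autoImplicit false

open TopologicalSpace

namespace Pool.Agent.H99.BP

theorem coe_compl_opens {X : Type} [TopologicalSpace X] (U : Opens X) :
    ((Uᶜ : Opens X) : Set X) = (closure (U : Set X))ᶜ := by
  apply Set.Subset.antisymm
  · intro x hx hcl
    obtain ⟨y, hy1, hy2⟩ := mem_closure_iff.1 hcl _ (Uᶜ : Opens X).isOpen hx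
    have h2 : y ∈ Uᶜ ⊓ U := ⟨hy1, hy2⟩
    rw [compl_inf_self] at h2
    exact h2
  · have h1 : (⟨(closure (U : Set X))ᶜ, isClosed_closure.isOpen_compl⟩ : Opens X) ≤ Uᶜ := by
      rw [le_compl_iff_disjoint_right, ← Opens.coe_disjoint, Set.disjoint_left]
      intro x hx hxU
      exact hx (subset_closure hxU)
    exact h1

theorem isRegular_of_interior {X : Type} [TopologicalSpace X] (U : Opens X)
    (h : interior (closure (U : Set X)) = U) : Heyting.IsRegular U := by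
  unfold Heyting.IsRegular
  apply SetLike.coe_injective
  rw [coe_compl_opens, coe_compl_opens, ← interior_eq_compl_closure_compl, h]

/-- the interval with rational ends -/
def Iv (p : ℚ × ℚ) : RO ℝ :=
  ⟨⟨Set.Ioo (p.1 : ℝ) p.2, isOpen_Ioo⟩, by
    apply isRegular_of_interior
    show interior (closure (Set.Ioo (p.1 : ℝ) p.2)) = Set.Ioo (p.1 : ℝ) p.2
    by_cases h : (p.1 : ℝ) < p.2
    · rw [closure_Ioo h.ne, interior_Icc]
    · rw [Set.Ioo_eq_empty h, closure_empty, interior_empty]⟩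

theorem mem_Iv (p : ℚ × ℚ) (x : ℝ) : x ∈ (Iv p : Opens ℝ) ↔ (p.1 : ℝ) < x ∧ x < p.2 := Iff.rfl

theorem exists_Iv {W : Set ℝ} (hW : IsOpen W) {y : ℝ} (hy : y ∈ W) :
    ∃ p : ℚ × ℚ, y ∈ (Iv p : Opens ℝ) ∧ ∀ x, x ∈ (Iv p : Opens ℝ) → x ∈ W := by
  obtain ⟨e, he, hball⟩ := Metric.isOpen_iff.1 hW y hy
  obtain ⟨u, hu1, hu2⟩ := exists_rat_btwn (show y - e < y by linarith)
  obtain ⟨v, hv1, hv2⟩ := exists_rat_btwn (show y < y + e by linarith)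
  refine ⟨(u, v), (mem_Iv _ _).2 ⟨hu2, hv1⟩, fun x hx => hball ?_⟩
  obtain ⟨h1, h2⟩ := (mem_Iv _ _).1 hx
  rw [Metric.mem_ball, Real.dist_eq, abs_lt]
  dsimp only at h1 h2
  constructor <;> linarith

/-- the translation -/
def tau (q : ℚ) : C(ℝ, ℝ) := ⟨fun x => x + q, by fun_prop⟩

theorem tau_open (q : ℚ) : IsOpenMap (tau q) := isOpenMap_add_right (q : ℝ)

/-- the automorphism of the algebra -/
def phi (q : ℚ) : BoundedLatticeHom (RO ℝ) (RO ℝ) := pull (tau q) (tau_open q)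

theorem mem_phi (q : ℚ) (a : RO ℝ) (x : ℝ) :
    x ∈ (phi q a : Opens ℝ) ↔ x + q ∈ (a : Opens ℝ) := Iff.rfl

theorem mem_inf (a b : RO ℝ) (x : ℝ) :
    x ∈ ((a ⊓ b : RO ℝ) : Opens ℝ) ↔ x ∈ (a : Opens ℝ) ∧ x ∈ (b : Opens ℝ) := Iff.rfl

theorem phi_zero (a : RO ℝ) : phi 0 a = a := by
  apply Heyting.Regular.coe_injective
  ext x
  show x + ((0 : ℚ) : ℝ) ∈ (a : Opens ℝ) ↔ _
  rw [Rat.cast_zero, add_zero]
  rfl

/-- translations move every nonzero element so that it meets every other one -/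
theorem meet_phi (a b : RO ℝ) (ha : a ≠ ⊥) (hb : b ≠ ⊥) : ∃ q : ℚ, a ⊓ phi q b ≠ ⊥ := by
  obtain ⟨x, hx⟩ := ro_ne_bot.1 ha
  obtain ⟨y, hy⟩ := ro_ne_bot.1 hb
  have hopen : IsOpen {t : ℝ | x + t ∈ (b : Opens ℝ)} :=
    (b : Opens ℝ).isOpen.preimage (by fun_prop)
  obtain ⟨t, ht, q, rfl⟩ := Rat.denseRange_cast (𝕜 := ℝ) |>.exists_mem_open hopen
    ⟨y - x, by show x + (y - x) ∈ (b : Opens ℝ); rw [add_sub_cancel]; exact hy⟩ |> fun ⟨q, hq⟩ => (⟨(q : ℝ), hq, q, rfl⟩ : ∃ t : ℝ, t ∈ {t : ℝ | x + t ∈ (b : Opens ℝ)} ∧ ∃ q : ℚ, (q : ℝ) = t)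
  exact ⟨q, ro_ne_bot.2 ⟨x, hx, ht⟩⟩

/-- different translations are separated by an interval -/
theorem sep_phi (q r : ℚ) (hqr : q ≠ r) (a : RO ℝ) (ha : a ≠ ⊥) :
    ∃ p : ℚ × ℚ, a ⊓ phi q (Iv p) ≠ ⊥ ∧ phi q (Iv p) ⊓ phi r (Iv p) = ⊥ := by
  obtain ⟨x, hx⟩ := ro_ne_bot.1 ha
  have hd : 0 < |(q : ℝ) - r| := abs_pos.2 (sub_ne_zero.2 (by exact_mod_cast hqr))
  obtain ⟨p, hp1, hp2⟩ := exists_Iv (W := Metric.ball (x + q) (|(q : ℝ) - r| / 2)) Metric.isOpen_ball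
    (Metric.mem_ball_self (by linarith))
  refine ⟨p, ro_ne_bot.2 ⟨x, hx, hp1⟩, ?_⟩
  by_contra hcon
  obtain ⟨z, hz1, hz2⟩ := ro_ne_bot.1 hcon
  have h1 := hp2 _ hz1
  have h2 := hp2 _ hz2
  have h3 : dist ((tau q) z) ((tau r) z) < |(q : ℝ) - r| := by
    calc dist ((tau q) z) ((tau r) z) ≤ dist ((tau q) z) (x + q) + dist ((tau r) z) (x + q) :=
          dist_triangle_right _ _ _
      _ < |(q : ℝ) - r| / 2 + |(q : ℝ) - r| / 2 := add_lt_add h1 h2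
      _ = |(q : ℝ) - r| := by ring
  have h4 : dist ((tau q) z) ((tau r) z) = |(q : ℝ) - r| := by
    rw [Real.dist_eq]
    show |(z + q) - (z + r)| = _
    congr 1
    ring
  linarith

/-- an interval which meets `a` after translation and does not contain `c` -/
theorem small_phi (q : ℚ) (a c : RO ℝ) (ha : a ≠ ⊥) (hc : c ≠ ⊥) :
    ∃ p : ℚ × ℚ, a ⊓ phi q (Iv p) ≠ ⊥ ∧ c ⊓ (Iv p)ᶜ ≠ ⊥ := by
  obtain ⟨x₀, hx₀⟩ := ro_ne_bot.1 ha
  obtain ⟨z, hz⟩ := ro_ne_bot.1 hc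
  -- a point of `a` different from `z - q`
  obtain ⟨x, hx, hxz⟩ : ∃ x, x ∈ (a : Opens ℝ) ∧ x ≠ z - q := by
    obtain ⟨x, hx1, hx2⟩ := (dense_compl_singleton (z - (q : ℝ))).inter_open_nonempty _
      (a : Opens ℝ).isOpen ⟨x₀, hx₀⟩
    exact ⟨x, hx1, hx2⟩
  obtain ⟨p, hp1, hp2⟩ := exists_Iv (W := {z}ᶜ) isOpen_compl_singleton (y := x + q)
    (by
      intro h
      apply hxz
      have h' : x + q = z := h
      linarith)
  refine ⟨p, ro_ne_bot.2 ⟨x, hx, hp1⟩, ?_⟩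
  intro h
  have h1 : c ≤ Iv p := by
    rw [← disjoint_compl_right_iff, disjoint_iff]
    exact h
  exact hp2 z (h1 hz) rfl

end Pool.Agent.H99.BP
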