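import Pool.Agent.H99.BP.Defs
import Pool.Agent.H99.BP.Line

/-!
# The product `Q`, and the minimal product `M`
-/

set_option autoImplicit false

open TopologicalSpace Cardinal

namespace Pool.Agent.H99.BP

/-! ## General facts -/

theorem pi_exists_lub {I : Type} {D : I → Type} [∀ q, BooleanAlgebra (D q)]
    (h : ∀ q, ∀ S : Set (D q), ∃ x, IsLUB S x) (S : Set (∀ q, D q)) : ∃ x, IsLUB S x := by
  choose f hf using fun q => h q (Function.eval q '' S)
  exact ⟨f, isLUB_pi.2 hf⟩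

/-- a family of homomorphisms as one homomorphism into the product -/
def piHom {I C : Type} {D : I → Type} [BooleanAlgebra C] [∀ q, BooleanAlgebra (D q)]
    (h : ∀ q, BoundedLatticeHom C (D q)) : BoundedLatticeHom C (∀ q, D q) where
  toFun a q := h q a
  map_sup' a b := funext fun q => map_sup (h q) a b
  map_inf' a b := funext fun q => map_inf (h q) a b
  map_top' := funext fun q => map_top (h q)
  map_bot' := funext fun q => map_bot (h q)

theorem piHom_lub {I C : Type} {D : I → Type} [BooleanAlgebra C] [∀ q, BooleanAlgebra (D q)]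
    (h : ∀ q, BoundedLatticeHom C (D q))
    (hl : ∀ q (S : Set C) (x : C), IsLUB S x → IsLUB (h q '' S) (h q x))
    {S : Set C} {x : C} (hx : IsLUB S x) : IsLUB (piHom h '' S) (piHom h x) := by
  rw [isLUB_pi]
  intro q
  rw [Set.image_image]
  exact hl q S x hx

/-- two homomorphisms whose images are independent -/
theorem indepOn_bool {B : Type} {A : Bool → Type} [∀ t, BooleanAlgebra (A t)] [BooleanAlgebra B]
    [∀ t, Nontrivial (A t)] (i : ∀ t, BoundedLatticeHom (A t) B)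
    (h : ∀ (a : A true) (b : A false), a ≠ ⊥ → b ≠ ⊥ → i true a ⊓ i false b ≠ ⊥) (T' : Set Bool) :
    IndepOn i T' := by
  classical
  intro c hc
  set c' : ∀ t, A t := fun t => if t ∈ T' then c t else ⊤ with hc'
  have hne : ∀ t, c' t ≠ ⊥ := by
    intro t
    by_cases ht : t ∈ T'
    · rw [hc']
      simp only [if_pos ht]
      exact hc t ht
    · rw [hc']
      simp only [if_neg ht]
      exact top_ne_bot
  refine ⟨i true (c' true) ⊓ i false (c' false), ?_, h _ _ (hne true) (hne false)⟩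
  constructor
  · rintro _ ⟨t, ht, rfl⟩
    have h1 : c' t = c t := by
      rw [hc']
      simp only [if_pos ht]
    show _ ≤ i t (c t)
    rw [← h1]
    cases t
    · exact inf_le_right
    · exact inf_le_left
  · intro y hy
    have h1 : ∀ t, y ≤ i t (c' t) := by
      intro t
      by_cases ht : t ∈ T'
      · have h2 : c' t = c t := by
          rw [hc']
          simp only [if_pos ht]
        rw [h2]
        exact hy ⟨t, ht, rfl⟩
      · have h2 : c' t = ⊤ := by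
          rw [hc']
          simp only [if_neg ht]
        rw [h2, map_top]
        exact le_top
    exact le_inf (h1 true) (h1 false)

section closed

variable {B : Type} [BooleanAlgebra B] {m : Cardinal.{0}} (hm : ℵ₀ ≤ m) {S : Set B}
  (h1 : ∀ x ∈ S, xᶜ ∈ S)
  (h2 : ∀ R : Set B, R ⊆ S → #R ≤ m → ∀ x, (IsLUB R x → x ∈ S) ∧ (IsGLB R x → x ∈ S))

include hm h2

theorem closed_sup {x y : B} (hx : x ∈ S) (hy : y ∈ S) : x ⊔ y ∈ S := by
  refine (h2 {x, y} ?_ ?_ (x ⊔ y)).1 isLUB_pair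
  · rintro z (rfl | rfl)
    · exact hx
    · exact hy
  · exact (Cardinal.lt_aleph0_of_finite _).le.trans hm

theorem closed_inf {x y : B} (hx : x ∈ S) (hy : y ∈ S) : x ⊓ y ∈ S := by
  refine (h2 {x, y} ?_ ?_ (x ⊓ y)).2 isGLB_pair
  · rintro z (rfl | rfl)
    · exact hx
    · exact hy
  · exact (Cardinal.lt_aleph0_of_finite _).le.trans hm

theorem closed_lub {I : Type} [Countable I] {f : I → B} (hf : ∀ j, f j ∈ S) {x : B}
    (hx : IsLUB (Set.range f) x) : x ∈ S := by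
  refine (h2 (Set.range f) ?_ ?_ x).1 hx
  · rintro _ ⟨j, rfl⟩
    exact hf j
  · exact (Cardinal.mk_le_aleph0_iff.2 (Set.countable_range f).to_subtype).trans hm

theorem closed_glb {I : Type} [Countable I] {f : I → B} (hf : ∀ j, f j ∈ S) {x : B}
    (hx : IsGLB (Set.range f) x) : x ∈ S := by
  refine (h2 (Set.range f) ?_ ?_ x).2 hx
  · rintro _ ⟨j, rfl⟩
    exact hf j
  · exact (Cardinal.mk_le_aleph0_iff.2 (Set.countable_range f).to_subtype).trans hm

end closed

instance ro_nontrivial : Nontrivial (RO ℝ) :=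
  ⟨⊤, ⊥, fun h => by
    have h1 : (0 : ℝ) ∈ ((⊤ : RO ℝ) : Opens ℝ) := trivial
    rw [h] at h1
    exact h1⟩

theorem mhom_of_lub {A B : Type} [BooleanAlgebra A] [BooleanAlgebra B] (m : Cardinal.{0})
    (h : BoundedLatticeHom A B)
    (hl : ∀ (S : Set A) (x : A), IsLUB S x → IsLUB (h '' S) (h x)) : IsMHom m h :=
  fun _ _ _ => ⟨hl _ _, glb_of_lub h (fun _ => hl _ _)⟩

theorem inf_aux {B : Type} [BooleanAlgebra B] {a b c : B} (h : a ≤ bᶜ ⊔ c) (h2 : b ⊓ c = ⊥) :
    a ⊓ b = ⊥ := by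
  rw [← le_bot_iff]
  calc a ⊓ b ≤ (bᶜ ⊔ c) ⊓ b := inf_le_inf_right _ h
    _ = (bᶜ ⊓ b) ⊔ (c ⊓ b) := inf_sup_right _ _ _
    _ = ⊥ := by rw [compl_inf_eq_bot, inf_comm c, h2, sup_bot_eq]
    _ ≤ ⊥ := le_rfl

/-! ## The product `Q` -/

/-- the embeddings into `ℚ → RO ℝ` -/
def iQ (t : Bool) : BoundedLatticeHom (RO ℝ) (ℚ → RO ℝ) :=
  match t with
  | true => piHom fun _ => BoundedLatticeHom.id _
  | false => piHom phi

theorem iQ_true (a : RO ℝ) (q : ℚ) : iQ true a q = a := rfl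

theorem iQ_false (a : RO ℝ) (q : ℚ) : iQ false a q = phi q a := rfl

theorem iQ_lub (t : Bool) (S : Set (RO ℝ)) (x : RO ℝ) (h : IsLUB S x) :
    IsLUB (iQ t '' S) (iQ t x) := by
  cases t
  · exact piHom_lub _ (fun q S x h => pull_lub _ _ h) h
  · exact piHom_lub _ (fun q S x h => by simpa using h) h

theorem iQ_inj (t : Bool) : Function.Injective (iQ t) := by
  intro a b hab
  have h := congrFun hab 0
  cases t
  · rw [iQ_false, iQ_false, phi_zero, phi_zero] at h
    exact h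
  · exact h

/-- the partition of unity -/
def EQ (q : ℚ) : ℚ → RO ℝ := fun r => if r = q then ⊤ else ⊥

theorem EQ_glb (q : ℚ) :
    IsGLB (Set.range fun p : ℚ × ℚ => (iQ true (phi q (Iv p)))ᶜ ⊔ iQ false (Iv p)) (EQ q) := by
  constructor
  · rintro _ ⟨p, rfl⟩ r
    show (if r = q then ⊤ else ⊥ : RO ℝ) ≤ (phi q (Iv p))ᶜ ⊔ phi r (Iv p)
    by_cases h : r = q
    · rw [h, compl_sup_eq_top]
      exact le_top
    · rw [if_neg h]
      exact bot_le
  · intro y hy r
    show y r ≤ (if r = q then ⊤ else ⊥ : RO ℝ)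
    by_cases h : r = q
    · rw [if_pos h]
      exact le_top
    · rw [if_neg h, le_bot_iff]
      by_contra hcon
      obtain ⟨p, hp1, hp2⟩ := sep_phi q r (fun h' => h h'.symm) (y r) hcon
      have h1 : y r ≤ (phi q (Iv p))ᶜ ⊔ phi r (Iv p) := hy ⟨p, rfl⟩ r
      exact hp1 (inf_aux h1 hp2)

theorem EQ_lub : IsLUB (Set.range EQ) ⊤ := by
  constructor
  · intro _ _
    exact le_top
  · intro y hy r
    have h1 : EQ r r ≤ y r := hy ⟨r, rfl⟩ r
    have h2 : EQ r r = ⊤ := if_pos rfl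
    rw [h2] at h1
    exact h1

theorem iQ_indep (a b : RO ℝ) (ha : a ≠ ⊥) (hb : b ≠ ⊥) : iQ true a ⊓ iQ false b ≠ ⊥ := by
  obtain ⟨q, hq⟩ := meet_phi a b ha hb
  intro h
  exact hq (congrFun h q)

/-- the product `Q` -/
def QP (m : Cardinal.{0}) (hm : ℵ₀ ≤ m) : MProduct m (fun _ : Bool => RO ℝ) where
  B := ℚ → RO ℝ
  i := iQ
  malg := fun S _ => ⟨pi_exists_lub (fun _ => exists_isLUB) S,
    exists_isGLB_of (pi_exists_lub (fun _ => exists_isLUB)) S⟩
  miso := fun t => ⟨mhom_of_lub m _ (iQ_lub t), iQ_inj t⟩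
  indep := fun T' _ => indepOn_bool iQ iQ_indep T'
  gen := by
    intro S hS h1 h2 x
    have hE : ∀ q, EQ q ∈ S := fun q =>
      closed_glb hm h2 (fun p => closed_sup hm h2 (h1 _ (hS true _)) (hS false _)) (EQ_glb q)
    refine closed_lub hm h2 (f := fun q => EQ q ⊓ iQ true (x q))
      (fun q => closed_inf hm h2 (hE q) (hS true _)) ?_
    constructor
    · rintro _ ⟨q, rfl⟩ r
      show (if r = q then ⊤ else ⊥ : RO ℝ) ⊓ x q ≤ x r
      by_cases h : r = q
      · rw [h]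
        exact inf_le_right
      · rw [if_neg h]
        exact inf_le_left.trans bot_le
    · intro y hy r
      have h3 : (if r = r then ⊤ else ⊥ : RO ℝ) ⊓ x r ≤ y r := hy ⟨r, rfl⟩ r
      rw [if_pos rfl] at h3
      exact le_trans (le_inf le_top le_rfl) h3

/-! ## The minimal product -/

/-- the two projections of the plane -/
def prj (t : Bool) : C(ℝ × ℝ, ℝ) :=
  match t with
  | true => ⟨Prod.fst, continuous_fst⟩
  | false => ⟨Prod.snd, continuous_snd⟩

theorem prj_open (t : Bool) : IsOpenMap (prj t) := by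
  cases t
  · exact isOpenMap_snd
  · exact isOpenMap_fst

theorem prj_surj (t : Bool) : Function.Surjective (prj t) := by
  cases t
  · exact Prod.snd_surjective
  · exact Prod.fst_surjective

/-- the embeddings into `RO (ℝ × ℝ)` -/
def iM (t : Bool) : BoundedLatticeHom (RO ℝ) (RO (ℝ × ℝ)) := pull (prj t) (prj_open t)

theorem iM_indep (a b : RO ℝ) (ha : a ≠ ⊥) (hb : b ≠ ⊥) : iM true a ⊓ iM false b ≠ ⊥ := by
  obtain ⟨x, hx⟩ := ro_ne_bot.1 ha
  obtain ⟨y, hy⟩ := ro_ne_bot.1 hb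
  exact ro_ne_bot.2 ⟨(x, y), hx, hy⟩

/-- below each nonzero element there is a rational box -/
theorem exists_box (W : RO (ℝ × ℝ)) {z : ℝ × ℝ} (hz : z ∈ (W : Opens (ℝ × ℝ))) :
    ∃ p r : ℚ × ℚ, z ∈ ((iM true (Iv p) ⊓ iM false (Iv r) : RO (ℝ × ℝ)) : Opens (ℝ × ℝ)) ∧
      iM true (Iv p) ⊓ iM false (Iv r) ≤ W := by
  obtain ⟨u, v, hu, hv, hzu, hzv, huv⟩ := isOpen_prod_iff.1 (W : Opens (ℝ × ℝ)).isOpen z.1 z.2 hz
  obtain ⟨p, hp1, hp2⟩ := exists_Iv hu hzu
  obtain ⟨r, hr1, hr2⟩ := exists_Iv hv hzv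
  refine ⟨p, r, ⟨hp1, hr1⟩, ?_⟩
  intro w hw
  exact huv ⟨hp2 _ hw.1, hr2 _ hw.2⟩

/-- the minimal product -/
def MP (m : Cardinal.{0}) (hm : ℵ₀ ≤ m) : MProduct m (fun _ : Bool => RO ℝ) where
  B := RO (ℝ × ℝ)
  i := iM
  malg := fun S _ => ⟨exists_isLUB S, exists_isGLB_of exists_isLUB S⟩
  miso := fun t => ⟨mhom_of_lub m _ (fun _ _ h => pull_lub _ _ h), pull_injective _ _ (prj_surj t)⟩
  indep := fun T' _ => indepOn_bool iM iM_indep T'
  gen := by
    intro S hS h1 h2 x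
    refine closed_lub hm h2 (I := {pr : (ℚ × ℚ) × (ℚ × ℚ) // iM true (Iv pr.1) ⊓
      iM false (Iv pr.2) ≤ x}) (f := fun pr => iM true (Iv pr.1.1) ⊓ iM false (Iv pr.1.2))
      (fun q => closed_inf hm h2 (hS true _) (hS false _)) ?_
    constructor
    · rintro _ ⟨q, rfl⟩
      exact q.2
    · intro y hy z hz
      obtain ⟨p, r, h3, h4⟩ := exists_box x hz
      exact hy ⟨⟨(p, r), h4⟩, rfl⟩ h3

theorem MP_minimal (m n : Cardinal.{0}) (hm : ℵ₀ ≤ m) (hn : ℵ₀ ≤ n) : (MP m hm).IsMinimal n := by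
  refine ⟨fun T' _ => indepOn_bool iM iM_indep T', ?_⟩
  intro x hx
  obtain ⟨z, hz⟩ := (ro_ne_bot (a := (x : RO (ℝ × ℝ)))).1 hx
  obtain ⟨p, r, h3, h4⟩ := exists_box x hz
  refine ⟨Set.univ, (Cardinal.lt_aleph0_of_finite _).le.trans hn,
    fun t => if t = true then Iv p else Iv r, iM true (Iv p) ⊓ iM false (Iv r), ?_,
    ro_ne_bot.2 ⟨z, h3⟩, h4⟩
  constructor
  · rintro _ ⟨t, -, rfl⟩
    cases t
    · exact inf_le_right
    · exact inf_le_left
  · intro y hy
    exact le_inf (hy ⟨true, trivial, rfl⟩) (hy ⟨false, trivial, rfl⟩)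

end Pool.Agent.H99.BP
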