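import Mathlib

/-!
# Products of Boolean 𝔪-algebras: definitions (problem MP_6fd33d_al)
-/

set_option autoImplicit false

open Cardinal

namespace Pool.Agent.H99.BP

/-- `B` is a Boolean 𝔪-algebra: all joins and all meets of at most 𝔪 elements exist. -/
def IsMAlgebra (m : Cardinal.{0}) (B : Type) [BooleanAlgebra B] : Prop :=
  ∀ S : Set B, #S ≤ m → (∃ x, IsLUB S x) ∧ ∃ x, IsGLB S x

/-- The Boolean homomorphism `h` is an 𝔪-homomorphism: it preserves all joins and meets of at most 𝔪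
elements that exist in the domain. -/
def IsMHom (m : Cardinal.{0}) {A B : Type} [BooleanAlgebra A] [BooleanAlgebra B]
    (h : BoundedLatticeHom A B) : Prop :=
  ∀ (S : Set A) (x : A), #S ≤ m →
    (IsLUB S x → IsLUB (h '' S) (h x)) ∧ (IsGLB S x → IsGLB (h '' S) (h x))

/-- The images of the maps `i t`, `t ∈ T'`, are independent for the index set `T'`: for nonzero
elements `c t` the meet of the `i t (c t)`, `t ∈ T'`, exists and is not zero. -/
def IndepOn {T B : Type} {A : T → Type} [∀ t, BooleanAlgebra (A t)] [BooleanAlgebra B]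
    (i : ∀ t, BoundedLatticeHom (A t) B) (T' : Set T) : Prop :=
  ∀ c : ∀ t, A t, (∀ t ∈ T', c t ≠ ⊥) → ∃ x, IsGLB ((fun t => i t (c t)) '' T') x ∧ x ≠ ⊥

/-- An `(𝔪, 0)`-product of the Boolean algebras `A t`. -/
structure MProduct (m : Cardinal.{0}) {T : Type} (A : T → Type) [∀ t, BooleanAlgebra (A t)] where
  /-- the algebra -/
  B : Type
  [inst : BooleanAlgebra B]
  /-- the embeddings -/
  i : ∀ t, BoundedLatticeHom (A t) B
  /-- `B` is a Boolean 𝔪-algebra -/
  malg : IsMAlgebra m B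
  /-- the maps are 𝔪-isomorphisms into `B` -/
  miso : ∀ t, IsMHom m (i t) ∧ Function.Injective (i t)
  /-- the images are independent -/
  indep : ∀ T' : Set T, T'.Finite → IndepOn i T'
  /-- the images generate `B` as a Boolean 𝔪-algebra -/
  gen : ∀ S : Set B, (∀ t a, i t a ∈ S) → (∀ x ∈ S, xᶜ ∈ S) →
    (∀ R : Set B, R ⊆ S → #R ≤ m → ∀ x, (IsLUB R x → x ∈ S) ∧ (IsGLB R x → x ∈ S)) → ∀ x, x ∈ S

attribute [instance] MProduct.inst

variable {m : Cardinal.{0}} {T : Type} {A : T → Type} [∀ t, BooleanAlgebra (A t)]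

/-- `Q` is an `(𝔪, 𝔫)`-product: the images are 𝔫-independent. -/
def MProduct.IsNProduct (n : Cardinal.{0}) (Q : MProduct m A) : Prop :=
  ∀ T' : Set T, #T' ≤ n → IndepOn Q.i T'

/-- `Q` is a minimal `(𝔪, 𝔫)`-product: it is an `(𝔪, 𝔫)`-product and below each non-zero element there
is a non-zero meet of elements `i t (c t)`, `t ∈ T'`, with `|T'| ≤ 𝔫`. -/
def MProduct.IsMinimal (n : Cardinal.{0}) (Q : MProduct m A) : Prop :=
  Q.IsNProduct n ∧ ∀ x : Q.B, x ≠ ⊥ → ∃ T' : Set T, #T' ≤ n ∧ ∃ (c : ∀ t, A t) (y : Q.B),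
    IsGLB ((fun t => Q.i t (c t)) '' T') y ∧ y ≠ ⊥ ∧ y ≤ x

/-- The order of the products: `Q' ≤ Q` if some 𝔪-homomorphism `h` from the algebra of `Q` to the
algebra of `Q'` satisfies `i' t = h ∘ i t` for all `t`. -/
def MProduct.Below (Q' Q : MProduct m A) : Prop :=
  ∃ h : BoundedLatticeHom Q.B Q'.B, IsMHom m h ∧ ∀ t a, Q'.i t a = h (Q.i t a)

end Pool.Agent.H99.BP
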