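import Pool.Agent.H99.BP.Big

/-!
# No product lies below both `Q` and a minimal product
-/

set_option autoImplicit false

open TopologicalSpace Cardinal

namespace Pool.Agent.H99.BP

variable {m : Cardinal.{0}}

/-- the relations: their meet is the `q`-th element of the partition of unity of `Q` -/
def rel (S : MProduct m (fun _ : Bool => RO ℝ)) (q : ℚ) (p : ℚ × ℚ) : S.B :=
  (S.i true (phi q (Iv p)))ᶜ ⊔ S.i false (Iv p)

theorem inf_map {A B : Type} [BooleanAlgebra A] [BooleanAlgebra B] (h : BoundedLatticeHom A B)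
    (a b : A) : h (a ⊓ b) = h a ⊓ h b := map_inf h a b

theorem inf_ne_bot (S : MProduct m (fun _ : Bool => RO ℝ)) (a b : RO ℝ) (ha : a ≠ ⊥) (hb : b ≠ ⊥) :
    S.i true a ⊓ S.i false b ≠ ⊥ := by
  obtain ⟨x, hx, hne⟩ := S.indep Set.univ Set.finite_univ (fun t => if t = true then a else b)
    (fun t _ => by
      cases t
      · exact hb
      · exact ha)
  intro h
  apply hne
  rw [← le_bot_iff, ← h]
  exact le_inf (hx.1 ⟨true, trivial, rfl⟩) (hx.1 ⟨false, trivial, rfl⟩)

theorem min_glb (n : Cardinal.{0}) (M : MProduct m (fun _ : Bool => RO ℝ)) (hM : M.IsMinimal n)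
    (q : ℚ) : IsGLB (Set.range (rel M q)) ⊥ := by
  classical
  constructor
  · intro _ _
    exact bot_le
  · intro y hy
    rw [le_bot_iff]
    by_contra hcon
    obtain ⟨T', -, c, z, hz, hzne, hzy⟩ := hM.2 y hcon
    have hcne : ∀ t ∈ T', c t ≠ ⊥ := by
      intro t ht h0
      apply hzne
      have h1 : z ≤ M.i t (c t) := hz.1 ⟨t, ht, rfl⟩
      rw [h0, map_bot, le_bot_iff] at h1
      exact h1
    have hd : ∀ t, ∃ d : RO ℝ, d ≠ ⊥ ∧ (t ∈ T' → d = c t) := by
      intro t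
      by_cases ht : t ∈ T'
      · exact ⟨c t, hcne t ht, fun _ => rfl⟩
      · exact ⟨⊤, top_ne_bot, fun h => absurd h ht⟩
    choose d hdne hd using hd
    have hle : M.i true (d true) ⊓ M.i false (d false) ≤ z := by
      apply hz.2
      rintro _ ⟨t, ht, rfl⟩
      show _ ≤ M.i t (c t)
      rw [← hd t ht]
      cases t
      · exact inf_le_right
      · exact inf_le_left
    obtain ⟨p, hp1, hp2⟩ := small_phi q (d true) (d false) (hdne true) (hdne false)
    apply inf_ne_bot M _ _ hp1 hp2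
    have e1 : M.i true (d true ⊓ phi q (Iv p)) = M.i true (d true) ⊓ M.i true (phi q (Iv p)) :=
      inf_map _ _ _
    have e2 : M.i false (d false ⊓ (Iv p)ᶜ) = M.i false (d false) ⊓ (M.i false (Iv p))ᶜ :=
      (inf_map (M.i false) (d false) _).trans (by rw [map_compl'])
    rw [e1, e2]
    have h3 : M.i true (d true) ⊓ M.i false (d false) ≤ (M.i true (phi q (Iv p)))ᶜ ⊔
        M.i false (Iv p) := hle.trans (hzy.trans (hy ⟨p, rfl⟩))
    have h4 := inf_le_inf_right (M.i true (phi q (Iv p)) ⊓ (M.i false (Iv p))ᶜ) h3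
    rw [← le_bot_iff]
    calc M.i true (d true) ⊓ M.i true (phi q (Iv p)) ⊓ (M.i false (d false) ⊓ (M.i false (Iv p))ᶜ)
        = M.i true (d true) ⊓ M.i false (d false) ⊓
          (M.i true (phi q (Iv p)) ⊓ (M.i false (Iv p))ᶜ) := inf_inf_inf_comm _ _ _ _
      _ ≤ ((M.i true (phi q (Iv p)))ᶜ ⊔ M.i false (Iv p)) ⊓
          (M.i true (phi q (Iv p)) ⊓ (M.i false (Iv p))ᶜ) := h4
      _ = ⊥ := by
        rw [inf_sup_right, ← inf_assoc, compl_inf_eq_bot, bot_inf_eq, bot_sup_eq,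
          inf_comm (M.i true (phi q (Iv p))), ← inf_assoc, inf_compl_eq_bot, bot_inf_eq]

theorem map_rel {S Q : MProduct m (fun _ : Bool => RO ℝ)} (h : BoundedLatticeHom Q.B S.B)
    (hi : ∀ t a, S.i t a = h (Q.i t a)) (q : ℚ) :
    h '' Set.range (rel Q q) = Set.range (rel S q) := by
  rw [← Set.range_comp]
  congr 1
  funext p
  show h ((Q.i true (phi q (Iv p)))ᶜ ⊔ Q.i false (Iv p)) = _
  rw [map_sup, map_compl', ← hi, ← hi]
  rfl

theorem mk_range_le {B I : Type} [Countable I] (hm : ℵ₀ ≤ m) (f : I → B) :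
    #(Set.range f) ≤ m :=
  (Cardinal.mk_le_aleph0_iff.2 (Set.countable_range f).to_subtype).trans hm

theorem no_lower (n : Cardinal.{0}) (hm : ℵ₀ ≤ m) (M : MProduct m (fun _ : Bool => RO ℝ))
    (hM : M.IsMinimal n) (S : MProduct m (fun _ : Bool => RO ℝ)) (h1 : S.Below M)
    (h2 : S.Below (QP m hm)) : False := by
  obtain ⟨g, hg, hgi⟩ := h1
  obtain ⟨h, hh, hhi⟩ := h2
  have hbot : ∀ q : ℚ, h (EQ q) = ⊥ := by
    intro q
    have h3 : IsGLB (h '' Set.range (rel (QP m hm) q)) (h (EQ q)) :=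
      (hh _ _ (mk_range_le hm _)).2 (EQ_glb q)
    have h4 : IsGLB (g '' Set.range (rel M q)) (g ⊥) :=
      (hg _ _ (mk_range_le hm _)).2 (min_glb n M hM q)
    rw [map_rel h hhi] at h3
    rw [map_rel g hgi, map_bot] at h4
    exact h3.unique h4
  have h5 : IsLUB (h '' Set.range EQ) (h ⊤) := (hh _ _ (mk_range_le hm _)).1 EQ_lub
  have h6 : h ⊤ ≤ ⊥ := by
    apply h5.2
    rintro _ ⟨_, ⟨q, rfl⟩, rfl⟩
    rw [hbot q]
  obtain ⟨x, hx, hne⟩ := S.indep ∅ Set.finite_empty (fun _ => ⊤) (fun t ht => absurd ht (by simp))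
  apply hne
  rw [← le_bot_iff]
  exact le_top.trans ((map_top h).symm.le.trans h6)

theorem below_refl (S : MProduct m (fun _ : Bool => RO ℝ)) : S.Below S :=
  ⟨BoundedLatticeHom.id _, fun T x _ => by
    constructor <;> intro h <;> simpa using h, fun _ _ => rfl⟩

end Pool.Agent.H99.BP
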