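import Mathlib

/-!
# Regular open algebras

`RO X` is the complete Boolean algebra of the regular open sets of a space `X`.  Pulling back along a
continuous open map is a Boolean homomorphism which preserves all joins and meets.
-/

set_option autoImplicit false

open TopologicalSpace

namespace Pool.Agent.H99.BP

/-- the Boolean algebra of the regular open subsets of `X` -/
abbrev RO (X : Type) [TopologicalSpace X] : Type := Heyting.Regular (Opens X)

section lub

variable {X : Type} [TopologicalSpace X]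

theorem exists_isLUB (S : Set (RO X)) : ∃ x, IsLUB S x :=
  ⟨_, Heyting.Regular.gi.isLUB_of_u_image (isLUB_sSup _)⟩

theorem isLUB_coe {S : Set (RO X)} {x : RO X} (h : IsLUB S x) :
    (x : Opens X) = (sSup ((fun s : RO X => (s : Opens X)) '' S))ᶜᶜ := by
  have h1 : IsLUB S (Heyting.Regular.toRegular (sSup ((fun s : RO X => (s : Opens X)) '' S))) :=
    Heyting.Regular.gi.isLUB_of_u_image (isLUB_sSup _)
  rw [h.unique h1]
  rfl

end lub

theorem exists_isGLB_of {B : Type} [BooleanAlgebra B] (h : ∀ S : Set B, ∃ x, IsLUB S x)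
    (S : Set B) : ∃ x, IsGLB S x := by
  obtain ⟨x, hx⟩ := h (lowerBounds S)
  exact ⟨x, isLUB_lowerBounds.1 hx⟩

theorem isLUB_compl {B : Type} [BooleanAlgebra B] {S : Set B} {x : B} (h : IsGLB S x) :
    IsLUB (compl '' S) xᶜ := by
  constructor
  · rintro _ ⟨s, hs, rfl⟩
    exact compl_le_compl (h.1 hs)
  · intro y hy
    have h1 : yᶜ ≤ x := by
      apply h.2
      intro s hs
      have h2 : sᶜ ≤ y := hy ⟨s, hs, rfl⟩
      exact compl_le_of_compl_le h2
    exact compl_le_of_compl_le h1

theorem isGLB_compl {B : Type} [BooleanAlgebra B] {S : Set B} {x : B} (h : IsLUB S x) :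
    IsGLB (compl '' S) xᶜ := by
  constructor
  · rintro _ ⟨s, hs, rfl⟩
    exact compl_le_compl (h.1 hs)
  · intro y hy
    have h1 : x ≤ yᶜ := by
      apply h.2
      intro s hs
      have h2 : y ≤ sᶜ := hy ⟨s, hs, rfl⟩
      exact le_compl_comm.1 h2
    exact le_compl_comm.1 h1

/-- a Boolean homomorphism preserving one kind of bounds preserves the other -/
theorem glb_of_lub {A B : Type} [BooleanAlgebra A] [BooleanAlgebra B] (h : BoundedLatticeHom A B)
    {S : Set A} {x : A} (hl : ∀ x, IsLUB (compl '' S) x → IsLUB (h '' (compl '' S)) (h x))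
    (hx : IsGLB S x) : IsGLB (h '' S) (h x) := by
  have h1 := isGLB_compl (hl _ (isLUB_compl hx))
  rw [← map_compl', compl_compl] at h1
  convert h1 using 1
  ext y
  constructor
  · rintro ⟨s, hs, rfl⟩
    exact ⟨h sᶜ, ⟨sᶜ, ⟨s, hs, rfl⟩, rfl⟩, by rw [← map_compl', compl_compl]⟩
  · rintro ⟨_, ⟨_, ⟨s, hs, rfl⟩, rfl⟩, rfl⟩
    exact ⟨s, hs, by rw [← map_compl', compl_compl]⟩

section pullback

variable {X Y : Type} [TopologicalSpace X] [TopologicalSpace Y]

theorem comap_compl (f : C(Y, X)) (hf : IsOpenMap f) (U : Opens X) :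
    Opens.comap f Uᶜ = (Opens.comap f U)ᶜ := by
  apply le_antisymm
  · rw [le_compl_iff_disjoint_right, disjoint_iff, ← map_inf, compl_inf_self, map_bot]
  · intro y hy
    have h1 : (⟨f '' ((Opens.comap f U)ᶜ : Opens Y), hf _ (Opens.isOpen _)⟩ : Opens X) ≤ Uᶜ := by
      rw [le_compl_iff_disjoint_right, ← Opens.coe_disjoint, Set.disjoint_left]
      rintro _ ⟨z, hz, rfl⟩ hzU
      have h2 : z ∈ (Opens.comap f U)ᶜ ⊓ Opens.comap f U := ⟨hz, hzU⟩
      rw [compl_inf_self] at h2
      exact h2
    exact h1 ⟨y, hy, rfl⟩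

/-- the pullback of regular open sets along a continuous open map -/
def pull (f : C(Y, X)) (hf : IsOpenMap f) : BoundedLatticeHom (RO X) (RO Y) where
  toFun a := ⟨Opens.comap f (a : Opens X), by
    have h : ((a : Opens X))ᶜᶜ = a := a.2
    show ((Opens.comap f (a : Opens X))ᶜ)ᶜ = _
    rw [← comap_compl f hf, ← comap_compl f hf, h]⟩
  map_sup' a b := by
    apply Heyting.Regular.coe_injective
    show Opens.comap f (((a : Opens X) ⊔ b)ᶜᶜ) = ((Opens.comap f (a : Opens X)) ⊔
      Opens.comap f (b : Opens X))ᶜᶜ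
    rw [comap_compl f hf, comap_compl f hf, map_sup]
  map_inf' a b := by
    apply Heyting.Regular.coe_injective
    show Opens.comap f ((a : Opens X) ⊓ b) = (Opens.comap f (a : Opens X)) ⊓
      Opens.comap f (b : Opens X)
    rw [map_inf]
  map_top' := by
    apply Heyting.Regular.coe_injective
    show Opens.comap f (⊤ : Opens X) = ⊤
    rw [map_top]
  map_bot' := by
    apply Heyting.Regular.coe_injective
    show Opens.comap f (⊥ : Opens X) = ⊥
    rw [map_bot]

theorem mem_pull (f : C(Y, X)) (hf : IsOpenMap f) (a : RO X) (y : Y) :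
    y ∈ (pull f hf a : Opens Y) ↔ f y ∈ (a : Opens X) := Iff.rfl

theorem pull_lub (f : C(Y, X)) (hf : IsOpenMap f) {S : Set (RO X)} {x : RO X} (h : IsLUB S x) :
    IsLUB (pull f hf '' S) (pull f hf x) := by
  constructor
  · rintro _ ⟨s, hs, rfl⟩
    exact OrderHomClass.mono (pull f hf) (h.1 hs)
  · intro y hy
    show Opens.comap f (x : Opens X) ≤ (y : Opens Y)
    rw [isLUB_coe h, comap_compl f hf, comap_compl f hf]
    have hy2 : (y : Opens Y)ᶜᶜ = y := y.2
    rw [← hy2]
    apply compl_le_compl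
    apply compl_le_compl
    rw [map_sSup]
    apply sSup_le
    rintro _ ⟨_, ⟨s, hs, rfl⟩, rfl⟩
    exact hy ⟨s, hs, rfl⟩

theorem pull_glb (f : C(Y, X)) (hf : IsOpenMap f) {S : Set (RO X)} {x : RO X} (h : IsGLB S x) :
    IsGLB (pull f hf '' S) (pull f hf x) :=
  glb_of_lub _ (fun _ h => pull_lub f hf h) h

theorem pull_injective (f : C(Y, X)) (hf : IsOpenMap f) (hs : Function.Surjective f) :
    Function.Injective (pull f hf) := by
  intro a b hab
  apply Heyting.Regular.coe_injective
  ext x
  obtain ⟨y, rfl⟩ := hs x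
  have h1 : y ∈ (pull f hf a : Opens Y) ↔ y ∈ (pull f hf b : Opens Y) := by rw [hab]
  exact h1

theorem ro_ne_bot {a : RO X} : a ≠ ⊥ ↔ ∃ x, x ∈ (a : Opens X) := by
  constructor
  · intro h
    by_contra hcon
    push Not at hcon
    apply h
    apply Heyting.Regular.coe_injective
    ext x
    exact ⟨fun hx => absurd hx (hcon x), fun hx => absurd hx (by
      intro h0
      exact h0)⟩
  · rintro ⟨x, hx⟩ rfl
    exact hx

end pullback

end Pool.Agent.H99.BP
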